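import Mathlib
import Pool.Agent.HarmExc.Interval

namespace Pool.Agent.Results.MP_01f3ee_nt.Sparse

open Pool.Agent.HarmExc

/-- Exceptional integers `≥ 5` are separated by a factor larger than `5/2`; hence there are at most
`1 + log (x/5) / log (5/2)` of them up to `x`. For every odd prime `p` and `k ≥ 1` no integer of the
interval `[(p-1) p^k, p^(k+1))` is exceptional. -/
theorem result :
    (∀ n m : ℕ, 5 ≤ n → n < m → Exceptional n → Exceptional m → 5 * n < 2 * m) ∧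
    (∀ (x : ℕ) (F : Finset ℕ), 5 ≤ x → (∀ n ∈ F, 5 ≤ n ∧ n ≤ x ∧ Exceptional n) →
      (F.card : ℝ) ≤ 1 + Real.log ((x : ℝ) / 5) / Real.log (5 / 2)) ∧
    (∀ p k n : ℕ, p.Prime → p ≠ 2 → 1 ≤ k → (p - 1) * p ^ k ≤ n → n < p ^ (k + 1) →
      ¬ Exceptional n) :=
  ⟨fun _ _ h5 h hn hm => gap hn hm h5 h,
    fun x F hx hF => count x hx F fun n hn => ⟨(hF n hn).2.2, (hF n hn).1, (hF n hn).2.1⟩,
    fun _ _ _ hp hp2 hk h1 h2 => interval hp hp2 hk h1 h2⟩

end Pool.Agent.Results.MP_01f3ee_nt.Sparse
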